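import Pool.Agent.H36.QT.Stm

/-!
# Module T2 of the disproof of MP_02a80e_co: vector matroids, the bases of PG(2,3), no Fano minors
(seat helper78)
-/

set_option autoImplicit false

namespace H78.QT

open Matroid Pool.Agent.H36.QT

/-! ## Vector matroids exist -/

theorem ncard_le {F : Type} [Field F] {α : Type} [Finite α] {d : ℕ} (v : α → Fin d → F)
    {I : Set α} (hI : LinearIndepOn F v I) : I.ncard ≤ d := by
  have h := hI.encard_le_toENat_rank
  rw [rank_fin_fun] at h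
  have h1 : I.encard ≤ (d : ℕ∞) := by simpa using h
  rw [← (Set.toFinite I).cast_ncard_eq] at h1
  exact_mod_cast h1

theorem aug {F : Type} [Field F] {α : Type} [Finite α] {d : ℕ} (v : α → Fin d → F)
    {I J : Set α} (hI : LinearIndepOn F v I) (hJ : LinearIndepOn F v J) (hc : I.ncard < J.ncard) :
    ∃ e ∈ J, e ∉ I ∧ LinearIndepOn F v (insert e I) := by
  by_contra hcon
  push Not at hcon
  have hspan : ∀ e ∈ J, v e ∈ Submodule.span F (v '' I) := by
    intro e he
    by_cases heI : e ∈ I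
    · exact Submodule.subset_span ⟨e, heI, rfl⟩
    · by_contra hns
      exact hcon e he heI ((linearIndepOn_insert heI).2 ⟨hI, hns⟩)
  have hle : Submodule.span F (v '' J) ≤ Submodule.span F (v '' I) := by
    rw [Submodule.span_le]
    rintro _ ⟨e, he, rfl⟩
    exact hspan e he
  have h1 := Submodule.finrank_mono hle
  have key : ∀ K : Set α, LinearIndepOn F v K →
      Module.finrank F (Submodule.span F (v '' K)) = K.ncard := by
    intro K hK
    have : Fintype K := Fintype.ofFinite K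
    have h2 := finrank_span_eq_card (R := F) (b := fun x : K => v x) hK
    rw [Set.image_eq_range]
    rw [h2, ← Nat.card_eq_fintype_card, Nat.card_coe_set_eq]
  rw [key I hI, key J hJ] at h1
  omega

theorem t2a : S_T2a := by
  intro F _ α _ d v
  refine ⟨(IndepMatroid.ofFinite (E := Set.univ) (Set.toFinite _) (fun I => LinearIndepOn F v I)
    (linearIndepOn_empty _ _) (fun I J hJ hIJ => hJ.mono hIJ) (fun I J hI hJ h => aug v hI hJ h)
    (fun I _ => Set.subset_univ _)).matroid, rfl, ?_⟩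
  intro I
  simp [IndepMatroid.ofFinite]

/-! ## Triples -/

theorem li3 {F : Type} [Field F] {α : Type} (v : α → Fin 3 → F) (i j k : α) (hij : i ≠ j)
    (hik : i ≠ k) (hjk : j ≠ k) : LinearIndepOn F v {i, j, k} ↔
      Matrix.det !![v i 0, v i 1, v i 2; v j 0, v j 1, v j 2; v k 0, v k 1, v k 2] ≠ 0 := by
  have hf : Function.Injective ![i, j, k] := by
    intro a b hab
    fin_cases a <;> fin_cases b <;> simp_all
  have hr : Set.range ![i, j, k] = {i, j, k} := by
    ext x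
    simp only [Set.mem_range, Fin.exists_fin_succ, Set.mem_insert_iff, Set.mem_singleton_iff]
    simp [eq_comm]
  rw [← hr, linearIndepOn_range_iff hf]
  have hm : (v ∘ ![i, j, k]) = Matrix.row
      (!![v i 0, v i 1, v i 2; v j 0, v j 1, v j 2; v k 0, v k 1, v k 2] : Matrix _ _ F) := by
    funext a b
    fin_cases a <;> fin_cases b <;> rfl
  rw [hm, Matrix.linearIndependent_rows_iff_isUnit, Matrix.isUnit_iff_isUnit_det, isUnit_iff_ne_zero]

theorem base_iff {F : Type} [Field F] {α : Type} [Finite α] (v : α → Fin 3 → F) (M : Matroid α)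
    (hM : IsVecMatroid v M) (X0 : Set α) (hX0 : M.Indep X0) (h3 : X0.ncard = 3) (X : Set α) :
    M.IsBase X ↔ M.Indep X ∧ X.ncard = 3 := by
  have hle : ∀ I, M.Indep I → I.ncard ≤ 3 := fun I hI => ncard_le v ((hM.2 I).1 hI)
  have hb0 : M.IsBase X0 := by
    obtain ⟨B, hB, hXB⟩ := hX0.exists_isBase_superset
    have h1 := hle B hB.indep
    have h2 : X0 = B := Set.eq_of_subset_of_ncard_le hXB (by omega) (Set.toFinite B)
    rwa [h2]
  constructor
  · intro h
    refine ⟨h.indep, ?_⟩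
    rw [h.ncard_eq_ncard_of_isBase hb0, h3]
  · rintro ⟨h, hc⟩
    obtain ⟨B, hB, hXB⟩ := h.exists_isBase_superset
    have h1 := hle B hB.indep
    have h2 : X = B := Set.eq_of_subset_of_ncard_le hXB (by omega) (Set.toFinite B)
    rwa [h2]

theorem ncard3 {α : Type} {i j k : α} (hij : i ≠ j) (hik : i ≠ k) (hjk : j ≠ k) :
    ({i, j, k} : Set α).ncard = 3 := by
  rw [Set.ncard_eq_three]
  exact ⟨i, j, k, hij, hik, hjk, rfl⟩

theorem t2b : S_T2b := by
  intro M hM X
  have hX0 : M.Indep {0, 1, 4} := by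
    rw [hM.2, li3 _ _ _ _ (by decide) (by decide) (by decide)]
    simp [pgVec, Matrix.det_fin_three]
  rw [base_iff pgVec M hM _ hX0 (ncard3 (by decide) (by decide) (by decide))]
  constructor
  · rintro ⟨h, hc⟩
    rw [Set.ncard_eq_three] at hc
    obtain ⟨x, y, z, hxy, hxz, hyz, rfl⟩ := hc
    have key : ∀ i j k : Fin 13, i < j → j < k → ({x, y, z} : Set (Fin 13)) = {i, j, k} →
        ∃ i j k : Fin 13, i < j ∧ j < k ∧
        Matrix.det !![pgVec i 0, pgVec i 1, pgVec i 2; pgVec j 0, pgVec j 1, pgVec j 2;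
          pgVec k 0, pgVec k 1, pgVec k 2] ≠ 0 ∧ ({x, y, z} : Set (Fin 13)) = {i, j, k} := by
      intro i j k hij hjk he
      refine ⟨i, j, k, hij, hjk, ?_, he⟩
      rw [he, hM.2, li3 _ _ _ _ hij.ne (hij.trans hjk).ne hjk.ne] at h
      exact h
    rcases lt_or_gt_of_ne hxy with h1 | h1 <;> rcases lt_or_gt_of_ne hxz with h2 | h2 <;>
      rcases lt_or_gt_of_ne hyz with h3 | h3
    · exact key x y z h1 h3 rfl
    · exact key x z y h2 h3 (by rw [Set.pair_comm])
    · exact absurd (h1.trans h3) (not_lt.2 h2.le)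
    · exact key z x y h2 h1 (by ext; simp; tauto)
    · exact key y x z h1 h2 (by ext; simp; tauto)
    · exact absurd (h3.trans h1) (not_lt.2 h2.le)
    · exact key y z x h3 h2 (by ext; simp; tauto)
    · exact key z y x h3 h1 (by ext; simp; tauto)
  · rintro ⟨i, j, k, hij, hjk, hdet, rfl⟩
    refine ⟨?_, ncard3 hij.ne (hij.trans hjk).ne hjk.ne⟩
    rw [hM.2, li3 _ _ _ _ hij.ne (hij.trans hjk).ne hjk.ne]
    exact hdet

/-! ## No Fano configuration over a field with `2 ≠ 0` -/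

/-- the matrix with the rows `u`, `v`, `w` -/
def mt {F : Type} (u v w : Fin 3 → F) : Matrix (Fin 3) (Fin 3) F :=
  !![u 0, u 1, u 2; v 0, v 1, v 2; w 0, w 1, w 2]

theorem mt_mul {F : Type} [Field F] (u v w : Fin 3 → F) (A : Matrix (Fin 3) (Fin 3) F) :
    mt (Matrix.vecMul u A) (Matrix.vecMul v A) (Matrix.vecMul w A) = mt u v w * A := by
  ext a b
  fin_cases a <;> fin_cases b <;>
    simp [mt, Matrix.mul_apply, Matrix.vecMul, dotProduct, Fin.sum_univ_three]

/-- there is no Fano plane over a field with `2 ≠ 0`, if the points 0, 1, 3 are the unit vectors -/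
theorem fano_std {F : Type} [Field F] (h2 : (2 : F) ≠ 0) (p : Fin 7 → Fin 3 → F)
    (e0 : p 0 = ![1, 0, 0]) (e1 : p 1 = ![0, 1, 0]) (e3 : p 3 = ![0, 0, 1])
    (z1 : (mt (p 0) (p 1) (p 2)).det = 0) (z2 : (mt (p 0) (p 3) (p 4)).det = 0)
    (z3 : (mt (p 1) (p 3) (p 5)).det = 0) (z4 : (mt (p 0) (p 5) (p 6)).det = 0)
    (z5 : (mt (p 1) (p 4) (p 6)).det = 0) (z6 : (mt (p 2) (p 3) (p 6)).det = 0)
    (z7 : (mt (p 2) (p 4) (p 5)).det = 0)
    (n1 : (mt (p 1) (p 2) (p 3)).det ≠ 0) (n2 : (mt (p 0) (p 1) (p 4)).det ≠ 0)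
    (n3 : (mt (p 0) (p 3) (p 5)).det ≠ 0) (n4 : (mt (p 0) (p 1) (p 6)).det ≠ 0)
    (n5 : (mt (p 0) (p 3) (p 6)).det ≠ 0) (n6 : (mt (p 1) (p 3) (p 6)).det ≠ 0) : False := by
  rw [mt, Matrix.det_fin_three] at z1 z2 z3 z4 z5 z6 z7 n1 n2 n3 n4 n5 n6
  rw [e0, e1] at z1 n2 n4
  rw [e0, e3] at z2 n3 n5
  rw [e1, e3] at z3 n1 n6
  rw [e0] at z4
  rw [e1] at z5
  rw [e3] at z6
  simp at z1 z2 z3 z4 z5 z6 z7 n1 n2 n3 n4 n5 n6
  -- `p 2 = (a, b, 0)`, `p 4 = (d, 0, e)`, `p 5 = (0, g, h)`, `p 6 = (x, y, z)`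
  rw [z1] at z7
  rw [z2] at z7
  rw [z3] at z7
  have key : (2 : F) * (p 2 0 * p 4 2 * p 5 1 * p 6 0 * p 6 1 * p 6 2) = 0 := by
    linear_combination (p 4 2 * p 6 0 * p 2 0 * p 6 1) * z4 +
      (p 5 2 * p 6 1 * p 2 0 * p 6 1) * z5 - (p 5 2 * p 6 1 * p 4 0 * p 6 2) * z6 -
      (p 6 0 * p 6 1 * p 6 2) * z7
  have key2 := mul_ne_zero h2 (mul_ne_zero (mul_ne_zero (mul_ne_zero (mul_ne_zero
    (mul_ne_zero n1 n2) n3) n6) n5) n4)
  exact key2 key

theorem one_row {F : Type} [Field F] : (1 : Matrix (Fin 3) (Fin 3) F) 0 = ![1, 0, 0] ∧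
    (1 : Matrix (Fin 3) (Fin 3) F) 1 = ![0, 1, 0] ∧ (1 : Matrix (Fin 3) (Fin 3) F) 2 = ![0, 0, 1] := by
  refine ⟨?_, ?_, ?_⟩ <;> funext b <;> rw [Matrix.one_apply] <;> fin_cases b <;> rfl

/-- there is no Fano plane over a field with `2 ≠ 0` -/
theorem fano_false {F : Type} [Field F] (h2 : (2 : F) ≠ 0) (p : Fin 7 → Fin 3 → F)
    (z1 : (mt (p 0) (p 1) (p 2)).det = 0) (z2 : (mt (p 0) (p 3) (p 4)).det = 0)
    (z3 : (mt (p 1) (p 3) (p 5)).det = 0) (z4 : (mt (p 0) (p 5) (p 6)).det = 0)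
    (z5 : (mt (p 1) (p 4) (p 6)).det = 0) (z6 : (mt (p 2) (p 3) (p 6)).det = 0)
    (z7 : (mt (p 2) (p 4) (p 5)).det = 0)
    (n0 : (mt (p 0) (p 1) (p 3)).det ≠ 0)
    (n1 : (mt (p 1) (p 2) (p 3)).det ≠ 0) (n2 : (mt (p 0) (p 1) (p 4)).det ≠ 0)
    (n3 : (mt (p 0) (p 3) (p 5)).det ≠ 0) (n4 : (mt (p 0) (p 1) (p 6)).det ≠ 0)
    (n5 : (mt (p 0) (p 3) (p 6)).det ≠ 0) (n6 : (mt (p 1) (p 3) (p 6)).det ≠ 0) : False := by
  let A := mt (p 0) (p 1) (p 3)
  have hA : IsUnit A.det := isUnit_iff_ne_zero.2 n0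
  have hinv : A * A⁻¹ = 1 := Matrix.mul_nonsing_inv A hA
  have hAi : (A⁻¹).det ≠ 0 := by
    have h := congrArg Matrix.det hinv
    rw [Matrix.det_mul, Matrix.det_one] at h
    intro h0
    rw [h0, mul_zero] at h
    exact zero_ne_one h
  have hm : ∀ i j k : Fin 7, (mt (Matrix.vecMul (p i) A⁻¹) (Matrix.vecMul (p j) A⁻¹)
      (Matrix.vecMul (p k) A⁻¹)).det = (mt (p i) (p j) (p k)).det * (A⁻¹).det := by
    intro i j k
    rw [mt_mul, Matrix.det_mul]
  have hrow : ∀ a : Fin 3, Matrix.vecMul (A a) A⁻¹ = (1 : Matrix (Fin 3) (Fin 3) F) a := by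
    intro a
    rw [← hinv]
    funext b
    rw [Matrix.mul_apply_eq_vecMul]
  have r0 : A 0 = p 0 := by funext b; fin_cases b <;> rfl
  have r1 : A 1 = p 1 := by funext b; fin_cases b <;> rfl
  have r2 : A 2 = p 3 := by funext b; fin_cases b <;> rfl
  have zz : ∀ i j k : Fin 7, (mt (p i) (p j) (p k)).det = 0 → (mt (Matrix.vecMul (p i) A⁻¹)
      (Matrix.vecMul (p j) A⁻¹) (Matrix.vecMul (p k) A⁻¹)).det = 0 := by
    intro i j k h
    rw [hm, h, zero_mul]
  have nn : ∀ i j k : Fin 7, (mt (p i) (p j) (p k)).det ≠ 0 → (mt (Matrix.vecMul (p i) A⁻¹)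
      (Matrix.vecMul (p j) A⁻¹) (Matrix.vecMul (p k) A⁻¹)).det ≠ 0 := by
    intro i j k h
    rw [hm]
    exact mul_ne_zero h hAi
  refine fano_std h2 (fun i => Matrix.vecMul (p i) A⁻¹) ?_ ?_ ?_ (zz _ _ _ z1) (zz _ _ _ z2)
    (zz _ _ _ z3) (zz _ _ _ z4) (zz _ _ _ z5) (zz _ _ _ z6) (zz _ _ _ z7) (nn _ _ _ n1)
    (nn _ _ _ n2) (nn _ _ _ n3) (nn _ _ _ n4) (nn _ _ _ n5) (nn _ _ _ n6)
  · have h := hrow 0
    rw [r0] at h
    exact h.trans one_row.1
  · have h := hrow 1
    rw [r1] at h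
    exact h.trans one_row.2.1
  · have h := hrow 2
    rw [r2] at h
    exact h.trans one_row.2.2

/-! ## Minors -/

/-- minors of the same rank are restrictions -/
theorem minor_indep_iff {α : Type*} (M N : Matroid α) (hN : N ≤m M) (k : ℕ)
    (hM : ∀ I, M.Indep I → I.encard ≤ k) (I0 : Set α) (hI0 : N.Indep I0) (h3 : I0.encard = k)
    (X : Set α) (hX : X ⊆ N.E) : N.Indep X ↔ M.Indep X := by
  refine ⟨fun h => h.of_isMinor hN, fun h => ?_⟩
  obtain ⟨C, D, hC, hD, hCD, rfl⟩ := hN.exists_eq_contract_delete_disjoint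
  obtain ⟨J, hJ⟩ := M.exists_isBasis C
  rw [Matroid.delete_indep_iff, hJ.contract_indep_iff] at hI0
  have h1 := hM _ hI0.1.1
  have hdis : Disjoint I0 J := (hI0.1.2.symm).mono_right hJ.subset
  rw [Set.encard_union_eq hdis, h3] at h1
  have hJ0 : J = ∅ := by
    rw [← Set.encard_eq_zero]
    by_contra hne
    have h2 : (1 : ℕ∞) ≤ J.encard := by
      rwa [Order.one_le_iff_ne_zero]
    have h4 : (k : ℕ∞) + 1 ≤ k := (add_le_add le_rfl h2).trans h1
    have h5 : ((k + 1 : ℕ) : ℕ∞) ≤ (k : ℕ∞) := by exact_mod_cast h4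
    have h6 : k + 1 ≤ k := by exact_mod_cast h5
    omega
  subst hJ0
  rw [Matroid.delete_indep_iff, hJ.contract_indep_iff]
  simp only [Matroid.delete_ground, Matroid.contract_ground, Set.subset_sdiff] at hX
  exact ⟨⟨by simpa using h, hX.1.2.symm⟩, hX.2⟩

theorem map_indep {α β : Type} (N : Matroid β) (f : β ↪ α) (I : Set β) :
    (N.mapEmbedding f).Indep (f '' I) ↔ N.Indep I := by
  rw [mapEmbedding_indep_iff, Set.preimage_image_eq _ f.injective]
  exact ⟨fun h => h.1, fun h => ⟨h, Set.image_subset_range _ _⟩⟩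

theorem encard_le3 {F : Type} [Field F] {α : Type} [Finite α] (v : α → Fin 3 → F) (M : Matroid α)
    (hM : IsVecMatroid v M) (I : Set α) (hI : M.Indep I) : I.encard ≤ (3 : ℕ) := by
  have h := ncard_le v ((hM.2 I).1 hI)
  rw [← (Set.toFinite I).cast_ncard_eq]
  exact_mod_cast h

theorem t2c : S_T2c := by
  intro M N hM hN
  have hb0 : N.Indep {0, 1, 3} := by
    rw [hN.2, li3 _ _ _ _ (by decide) (by decide) (by decide), Matrix.det_fin_three]
    decide
  constructor
  · rintro ⟨f, hf⟩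
    have hI0 : (N.mapEmbedding f).Indep (f '' {0, 1, 3}) := (map_indep N f _).2 hb0
    have h3 : (f '' ({0, 1, 3} : Set (Fin 7))).encard = (3 : ℕ) := by
      rw [f.injective.encard_image, ← (Set.toFinite _).cast_ncard_eq,
        ncard3 (by decide) (by decide) (by decide)]
    have key : ∀ i j k : Fin 7, i ≠ j → i ≠ k → j ≠ k →
        ((mt (pgVec (f i)) (pgVec (f j)) (pgVec (f k))).det ≠ 0 ↔
          (mt (fanoVec i) (fanoVec j) (fanoVec k)).det ≠ 0) := by
      intro i j k hij hik hjk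
      have h := minor_indep_iff M (N.mapEmbedding f) hf 3 (encard_le3 pgVec M hM) _ hI0 h3
        (f '' {i, j, k}) (by
          rw [mapEmbedding_ground_eq, hN.1]
          exact Set.image_mono (Set.subset_univ _))
      rw [map_indep, hN.2, li3 _ _ _ _ hij hik hjk] at h
      rw [show f '' ({i, j, k} : Set (Fin 7)) = {f i, f j, f k} by
        rw [Set.image_insert_eq, Set.image_pair], hM.2, li3 _ _ _ _ (f.injective.ne hij)
        (f.injective.ne hik) (f.injective.ne hjk)] at h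
      exact h.symm
    have z : ∀ i j k : Fin 7, i ≠ j → i ≠ k → j ≠ k →
        (mt (fanoVec i) (fanoVec j) (fanoVec k)).det = 0 →
        (mt (pgVec (f i)) (pgVec (f j)) (pgVec (f k))).det = 0 := by
      intro i j k hij hik hjk h
      by_contra hne
      exact (key i j k hij hik hjk).1 hne h
    refine fano_false (F := ZMod 3) (by decide) (fun i => pgVec (f i))
      (z 0 1 2 (by decide) (by decide) (by decide) ?_)
      (z 0 3 4 (by decide) (by decide) (by decide) ?_)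
      (z 1 3 5 (by decide) (by decide) (by decide) ?_)
      (z 0 5 6 (by decide) (by decide) (by decide) ?_)
      (z 1 4 6 (by decide) (by decide) (by decide) ?_)
      (z 2 3 6 (by decide) (by decide) (by decide) ?_)
      (z 2 4 5 (by decide) (by decide) (by decide) ?_)
      ((key 0 1 3 (by decide) (by decide) (by decide)).2 ?_)
      ((key 1 2 3 (by decide) (by decide) (by decide)).2 ?_)
      ((key 0 1 4 (by decide) (by decide) (by decide)).2 ?_)
      ((key 0 3 5 (by decide) (by decide) (by decide)).2 ?_)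
      ((key 0 1 6 (by decide) (by decide) (by decide)).2 ?_)
      ((key 0 3 6 (by decide) (by decide) (by decide)).2 ?_)
      ((key 1 3 6 (by decide) (by decide) (by decide)).2 ?_) <;>
    · rw [mt, Matrix.det_fin_three]
      decide
  · rintro ⟨f, hf⟩
    have hb : N.IsBase {0, 1, 3} :=
      (base_iff fanoVec N hN _ hb0 (ncard3 (by decide) (by decide) (by decide)) _).2
        ⟨hb0, ncard3 (by decide) (by decide) (by decide)⟩
    have h1 : N✶.Indep ({2, 4, 5, 6} : Set (Fin 7)) := by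
      refine hb.compl_isBase_dual.indep.subset ?_
      rw [hN.1]
      intro x hx
      simp only [Set.mem_insert_iff, Set.mem_singleton_iff] at hx
      simp only [Set.mem_sdiff, Set.mem_univ, true_and, Set.mem_insert_iff, Set.mem_singleton_iff]
      rcases hx with rfl | rfl | rfl | rfl <;> decide
    have h2 : M.Indep (f '' {2, 4, 5, 6}) := ((map_indep N✶ f _).2 h1).of_isMinor hf
    have h3 := encard_le3 pgVec M hM _ h2
    rw [f.injective.encard_image] at h3
    have h4 : ({2, 4, 5, 6} : Set (Fin 7)).encard = (4 : ℕ) := by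
      rw [← (Set.toFinite _).cast_ncard_eq]
      have : ({2, 4, 5, 6} : Set (Fin 7)) = (({2, 4, 5, 6} : Finset (Fin 7)) : Set (Fin 7)) := by
        simp
      rw [this, Set.ncard_coe_finset]
      rfl
    rw [h4] at h3
    have h5 : (4 : ℕ) ≤ 3 := by exact_mod_cast h3
    omega

end H78.QT
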