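import Pool.Agent.H36.QT.Sem
import Pool.Agent.H78.QT.T2

/-!
# Module W7 of the disproof of MP_02a80e_co, part a: the restrictions of `PG(2,3)` isomorphic to
`F_7^-` (seat helper78)
-/

set_option autoImplicit false

namespace H78.QT.W7

open Matroid Pool.Agent.H36.QT

/-- the set with the bit mask `a` -/
def St (a : ℕ) : Set (Fin 13) := {y | a.testBit y = true}

theorem mem_St (a : ℕ) (y : Fin 13) : y ∈ St a ↔ a.testBit y = true := Iff.rfl

/-- the determinant of three points -/
def dt (i j k : Fin 13) : ZMod 3 :=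
  pgVec i 0 * (pgVec j 1 * pgVec k 2 - pgVec j 2 * pgVec k 1)
    - pgVec i 1 * (pgVec j 0 * pgVec k 2 - pgVec j 2 * pgVec k 0)
    + pgVec i 2 * (pgVec j 0 * pgVec k 1 - pgVec j 1 * pgVec k 0)

/-- the triples -/
def trip : List (Fin 13 × Fin 13 × Fin 13) :=
  (((List.finRange 13) ×ˢ (List.finRange 13) ×ˢ (List.finRange 13)).filter
    fun t => decide (t.1 < t.2.1 ∧ t.2.1 < t.2.2)).filter fun t => decide (dt t.1 t.2.1 t.2.2 ≠ 0)

/-- the mask of a triple -/
def mk3 (t : Fin 13 × Fin 13 × Fin 13) : ℕ := 2 ^ (t.1 : ℕ) ||| 2 ^ (t.2.1 : ℕ) ||| 2 ^ (t.2.2 : ℕ)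

/-- the masks of the bases -/
def BL : List ℕ :=
  [19, 35, 67, 131, 259, 515, 1027, 2051, 4099, 21, 37, 69, 133, 261, 517, 1029, 2053, 4101, 25,
    41, 73, 137, 265, 521, 1033, 2057, 4105, 145, 273, 529, 1041, 2065, 4113, 161, 289, 545,
    1057, 2081, 4129, 193, 321, 577, 1089, 2113, 4161, 1153, 2177, 4225, 1281, 2305, 4353, 1537,
    2561, 4609, 22, 38, 70, 134, 262, 518, 1030, 2054, 4102, 26, 42, 74, 138, 266, 522, 1034,
    2058, 4106, 50, 82, 274, 530, 2066, 4114, 98, 162, 546, 1058, 4130, 194, 322, 1090, 2114,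
    386, 642, 2178, 4226, 770, 1282, 4354, 1538, 2562, 3074, 5122, 6146, 28, 44, 76, 140, 268,
    524, 1036, 2060, 4108, 52, 84, 148, 532, 1044, 2068, 100, 164, 292, 2084, 4132, 324, 580,
    1092, 4164, 388, 644, 1156, 4228, 772, 1284, 2308, 2564, 4612, 3076, 5124, 6148, 56, 88, 152,
    280, 1048, 4120, 104, 296, 552, 1064, 2088, 200, 584, 2120, 4168, 392, 648, 1160, 2184, 776,
    2312, 4360, 1544, 4616, 3080, 5128, 6152, 176, 304, 560, 1072, 2096, 4144, 208, 336, 592,
    1104, 2128, 4176, 400, 656, 2192, 4240, 784, 1296, 2320, 1552, 4624, 3088, 5136, 6160, 224,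
    352, 608, 1120, 2144, 4192, 416, 672, 1184, 2208, 800, 1312, 4384, 2592, 4640, 3104, 5152,
    6176, 448, 704, 1216, 4288, 832, 2368, 4416, 1600, 2624, 3136, 5184, 6208, 1408, 2432, 4480,
    1664, 2688, 4736, 3200, 5248, 6272, 1792, 2816, 4864, 3328, 5376, 6400, 3584, 5632, 6656]

/-- the set of the masks of the bases -/
def BS : ℕ := 0x10000000000000000000000000000000000000000000000000000000000000001000000000000000000000000000000010000000000000001000000010001011400000000000000000000000000000000000000000000000000000000000000000000000000000000000000000000000000000000000000000000000000000001000000000000000000000000000000000000000000000000000000000000000100000000000000000000000000000001000000000000000100000001000101140000000000000000000000000000000000000000000000000000000000000001000000000000000000000000000000010000000000000000000000010001011200000000000000000000000000000001000000000000000100000001000001060000000000000001000000000001001600000001000101120001001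6010616680000000000000000000000000000000000000000000000000000000000000000000000000000000000000000000000000000000000000000000000000000000100000000000000000000000000000000000000000000000000000000000000010000000000000000000000000000000100000000000000010000000100010114000000000000000000000000000000000000000000000000000000000000000100000000000000000000000000000001000000000000000100000001000000160000000000000000000000000000000100000000000000010000000000010112000000000000000000000001000101060000000100010106000101120016166800000000000000000000000000000000000000000000000000000000000000010000000000000000000000000000000100000000000000010000000000010106000000000000000000000000000000010000000000000000000000010001001600000000000000010000000100000112000000010001001600010106011216680000000000000000000000000000000000000000000000010000000100010114000000000000000100000001000101140000000100010112000101060016166800000000000000010000000100010114000000010001001600010112010616680000000100010106000100160112166800000114011416680114166816680000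

theorem BL_eq : BL = trip.map mk3 := by decide +kernel

theorem BS_eq : BS = BL.foldr (fun a s => 2 ^ a ||| s) 0 := by decide +kernel

theorem mem_of_foldr (l : List ℕ) (a : ℕ)
    (h : (l.foldr (fun a s => 2 ^ a ||| s) 0).testBit a = true) : a ∈ l := by
  induction l with
  | nil => simp at h
  | cons b l ih =>
    rw [List.foldr_cons, Nat.testBit_or, Bool.or_eq_true, Nat.testBit_two_pow] at h
    rcases h with h | h
    · rw [decide_eq_true_eq] at h
      rw [h]; exact List.mem_cons_self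
    · exact List.mem_cons_of_mem _ (ih h)

theorem mem_BL {a : ℕ} (h : BS.testBit a = true) : a ∈ BL := by
  rw [BS_eq] at h
  exact mem_of_foldr _ _ h

theorem St_mk3 (i j k : Fin 13) : St (mk3 (i, j, k)) = {i, j, k} := by
  ext y
  simp only [mem_St, mk3, Nat.testBit_or, Nat.testBit_two_pow, Bool.or_eq_true, decide_eq_true_eq,
    Set.mem_insert_iff, Set.mem_singleton_iff, Fin.ext_iff]
  omega

theorem det_eq (i j k : Fin 13) : Matrix.det !![pgVec i 0, pgVec i 1, pgVec i 2;
    pgVec j 0, pgVec j 1, pgVec j 2; pgVec k 0, pgVec k 1, pgVec k 2] = dt i j k := by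
  rw [Matrix.det_fin_three]
  simp [dt]
  ring

theorem base_mask (M : Matroid (Fin 13)) (hM : IsVecMatroid pgVec M) (X : Set (Fin 13)) :
    M.IsBase X ↔ ∃ a ∈ BL, X = St a := by
  rw [t2b M hM X]
  constructor
  · rintro ⟨i, j, k, hij, hjk, hd, rfl⟩
    refine ⟨mk3 (i, j, k), ?_, (St_mk3 i j k).symm⟩
    rw [BL_eq]
    refine List.mem_map_of_mem ?_
    rw [det_eq] at hd
    simp [trip, List.mem_filter, hij, hjk, hd]
  · rintro ⟨a, ha, rfl⟩
    rw [BL_eq] at ha
    obtain ⟨⟨i, j, k⟩, ht, rfl⟩ := List.mem_map.1 ha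
    simp only [trip, List.mem_filter, decide_eq_true_eq] at ht
    exact ⟨i, j, k, ht.1.2.1, ht.1.2.2, by rw [det_eq]; exact ht.2, St_mk3 i j k⟩

/-- the point `x` of the sequence `mm` -/
def ma (mm x : ℕ) : ℕ := (mm >>> (4 * x)) % 16

/-- the mask of the image of the set with the mask `t` -/
def im (mm t : ℕ) : ℕ :=
  (bif t.testBit 0 then 2 ^ ma mm 0 else 0) ||| (bif t.testBit 1 then 2 ^ ma mm 1 else 0) |||
  (bif t.testBit 2 then 2 ^ ma mm 2 else 0) ||| (bif t.testBit 3 then 2 ^ ma mm 3 else 0) |||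
  (bif t.testBit 4 then 2 ^ ma mm 4 else 0) ||| (bif t.testBit 5 then 2 ^ ma mm 5 else 0) |||
  (bif t.testBit 6 then 2 ^ ma mm 6 else 0)

/-- the mask of the preimage -/
def pre (mm a : ℕ) : ℕ :=
  (bif a.testBit (ma mm 0) then 1 else 0) ||| (bif a.testBit (ma mm 1) then 2 else 0) |||
  (bif a.testBit (ma mm 2) then 4 else 0) ||| (bif a.testBit (ma mm 3) then 8 else 0) |||
  (bif a.testBit (ma mm 4) then 16 else 0) ||| (bif a.testBit (ma mm 5) then 32 else 0) |||
  (bif a.testBit (ma mm 6) then 64 else 0)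

theorem tb (b : Bool) (k y : ℕ) :
    (bif b then 2 ^ k else 0 : ℕ).testBit y = true ↔ b = true ∧ k = y := by
  cases b
  · simp
  · simp [Nat.testBit_two_pow]

theorem testBit_im (mm t y : ℕ) :
    (im mm t).testBit y = true ↔ ∃ x < 7, t.testBit x = true ∧ ma mm x = y := by
  simp only [im, Nat.testBit_or, Bool.or_eq_true, tb]
  constructor
  · rintro ((((((h | h) | h) | h) | h) | h) | h)
    · exact ⟨0, by norm_num, h⟩
    · exact ⟨1, by norm_num, h⟩
    · exact ⟨2, by norm_num, h⟩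
    · exact ⟨3, by norm_num, h⟩
    · exact ⟨4, by norm_num, h⟩
    · exact ⟨5, by norm_num, h⟩
    · exact ⟨6, by norm_num, h⟩
  · rintro ⟨x, hx, h⟩
    interval_cases x
    · exact Or.inl (Or.inl (Or.inl (Or.inl (Or.inl (Or.inl h)))))
    · exact Or.inl (Or.inl (Or.inl (Or.inl (Or.inl (Or.inr h)))))
    · exact Or.inl (Or.inl (Or.inl (Or.inl (Or.inr h))))
    · exact Or.inl (Or.inl (Or.inl (Or.inr h)))
    · exact Or.inl (Or.inl (Or.inr h))
    · exact Or.inl (Or.inr h)
    · exact Or.inr h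

/-- the set of the masks `mkl` -/
def MS : ℕ := mkl.foldr (fun a s => 2 ^ a ||| s) 0

/-- `mm` is the sequence of the points of an `F_7^-` in `PG(2,3)` -/
def good (mm : ℕ) : Bool :=
  (List.range 7).all (fun x => Nat.blt (ma mm x) 13) &&
  (List.range 7).all (fun x => (List.range 7).all fun x' => Nat.beq x x' || !(Nat.beq (ma mm x) (ma mm x')))
  && mkl.all (fun t => BS.testBit (im mm t)) &&
  BL.all (fun a => !(Nat.beq (a &&& im mm 127) a) ||
    (MS.testBit (pre mm a) && Nat.beq (im mm (pre mm a)) a))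

structure Good (mm : ℕ) : Prop where
  lt : ∀ x < 7, ma mm x < 13
  inj : ∀ x < 7, ∀ x' < 7, ma mm x = ma mm x' → x = x'
  base : ∀ i < 29, im mm (mkl.getD i 0) ∈ BL
  all : ∀ a ∈ BL, a &&& im mm 127 = a → ∃ i < 29, im mm (mkl.getD i 0) = a

theorem mkl_length : mkl.length = 29 := rfl

theorem good_iff (mm : ℕ) (h : good mm = true) : Good mm := by
  simp only [good, Bool.and_eq_true, List.all_eq_true, List.mem_range, Bool.or_eq_true,
    Bool.not_eq_true'] at h
  obtain ⟨⟨⟨h1, h2⟩, h3⟩, h4⟩ := h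
  refine ⟨fun x hx => ?_, fun x hx x' hx' he => ?_, fun i hi => ?_, fun a ha hf => ?_⟩
  · have := h1 x hx
    rw [Nat.blt_eq] at this
    exact this
  · rcases h2 x hx x' hx' with h | h
    · exact Nat.eq_of_beq_eq_true h
    · rw [he] at h
      simp at h
  · refine mem_BL (h3 _ ?_)
    rw [List.getD_eq_getElem _ _ (by rw [mkl_length]; exact hi)]
    exact List.getElem_mem _
  · rcases h4 a ha with h | ⟨h5, h6⟩
    · rw [hf] at h
      simp at h
    · have h7 : pre mm a ∈ mkl := mem_of_foldr _ _ h5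
      obtain ⟨i, hi, hi2⟩ := List.getElem_of_mem h7
      refine ⟨i, by rw [← mkl_length]; exact hi, ?_⟩
      rw [List.getD_eq_getElem _ _ hi, hi2]
      exact Nat.eq_of_beq_eq_true h6

/-! ## From `Comb` on `PG(2,3)` to `Sys` -/

section

variable {M : Matroid (Fin 13)} {w : Set (Fin 13) → ℝ} {e : Set (Fin 13) → Set (Fin 13) → Prop}
  {mm : ℕ}

/-- the `i`-th basis of the restriction -/
def Ps (mm i : ℕ) : Set (Fin 13) := St (im mm (mkl.getD i 0))

theorem vtx_le {X : Set (Fin 13)} (y : Fin 13) : 0 ≤ vtx X y := by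
  unfold vtx
  by_cases h : y ∈ X
  · rw [Set.indicator_of_mem h]; exact zero_le_one
  · rw [Set.indicator_of_notMem h]

theorem vtx_one {X : Set (Fin 13)} {y : Fin 13} (h : y ∈ X) : vtx X y = 1 := by
  unfold vtx
  rw [Set.indicator_of_mem h]

theorem vtx_zero {X : Set (Fin 13)} {y : Fin 13} (h : y ∉ X) : vtx X y = 0 := by
  unfold vtx
  rw [Set.indicator_of_notMem h]

theorem mem_Ps (h : Good mm) {i x : ℕ} (hx : x < 7) {y : Fin 13} (hy : ma mm x = y) :
    y ∈ Ps mm i ↔ (mkl.getD i 0).testBit x = true := by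
  rw [Ps, mem_St, testBit_im]
  constructor
  · rintro ⟨x', hx', h1, h2⟩
    rw [← hy] at h2
    rw [← h.inj x' hx' x hx h2]
    exact h1
  · intro h1
    exact ⟨x, hx, h1, hy⟩

theorem vtx_Ps (h : Good mm) {i x : ℕ} (hx : x < 7) {y : Fin 13} (hy : ma mm x = y) :
    vtx (Ps mm i) y = (dg x i : ℝ) := by
  by_cases h1 : (mkl.getD i 0).testBit x = true
  · rw [vtx_one ((mem_Ps h hx hy).2 h1), dg, if_pos h1, Nat.cast_one]
  · rw [vtx_zero (fun h2 => h1 ((mem_Ps h hx hy).1 h2)), dg, if_neg h1, Nat.cast_zero]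

theorem Ps_sub (i : ℕ) : Ps mm i ⊆ St (im mm 127) := by
  intro y hy
  rw [Ps, mem_St, testBit_im] at hy
  obtain ⟨x, hx, -, h2⟩ := hy
  rw [mem_St, testBit_im]
  refine ⟨x, hx, ?_, h2⟩
  interval_cases x <;> decide

theorem dg_inj : ∀ i < 29, ∀ j < 29, (∀ x < 7, dg x i = dg x j) → i = j := by
  decide +kernel

theorem Ps_inj (h : Good mm) {i j : ℕ} (hi : i < 29) (hj : j < 29) (he : Ps mm i = Ps mm j) :
    i = j := by
  refine dg_inj i hi j hj fun x hx => ?_
  have h1 := vtx_Ps h (i := i) hx (y := ⟨ma mm x, h.lt x hx⟩) rfl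
  have h2 := vtx_Ps h (i := j) hx (y := ⟨ma mm x, h.lt x hx⟩) rfl
  rw [he, h2] at h1
  exact_mod_cast h1.symm

theorem Ps_base (hM : IsVecMatroid pgVec M) (h : Good mm) {i : ℕ} (hi : i < 29) :
    M.IsBase (Ps mm i) := (base_mask M hM _).2 ⟨_, h.base i hi, rfl⟩

theorem eq_Ps (hM : IsVecMatroid pgVec M) (h : Good mm) {X : Set (Fin 13)} (hX : M.IsBase X)
    (hs : X ⊆ St (im mm 127)) : ∃ i < 29, X = Ps mm i := by
  obtain ⟨a, ha, rfl⟩ := (base_mask M hM _).1 hX
  have hlt : ∀ a ∈ BL, a < 2 ^ 13 := by decide +kernel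
  have h1 : a &&& im mm 127 = a := by
    apply Nat.eq_of_testBit_eq
    intro y
    rw [Nat.testBit_and]
    by_cases hy : y < 13
    · by_cases h2 : a.testBit y = true
      · have := hs (show (⟨y, hy⟩ : Fin 13) ∈ St a from h2)
        rw [mem_St] at this
        rw [h2, this]; rfl
      · rw [Bool.not_eq_true] at h2
        rw [h2]; rfl
    · have h2 : a.testBit y = false := by
        refine Nat.testBit_lt_two_pow (lt_of_lt_of_le (hlt a ha) ?_)
        exact Nat.pow_le_pow_right (by norm_num) (by omega)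
      rw [h2]; rfl
  obtain ⟨i, hi, h2⟩ := h.all a ha h1
  exact ⟨i, hi, by rw [Ps, h2]⟩

theorem sub_of_sum {X Y X' Y' : Set (Fin 13)} {U : Set (Fin 13)} (hX : X ⊆ U) (hY : Y ⊆ U)
    (he : vtx X' + vtx Y' = vtx X + vtx Y) : X' ⊆ U := by
  intro y hy
  by_contra h
  have h1 := congrFun he y
  rw [Pi.add_apply, Pi.add_apply, vtx_one hy, vtx_zero (fun h2 => h (hX h2)),
    vtx_zero (fun h2 => h (hY h2))] at h1
  have := vtx_le (X := Y') y
  linarith

theorem sub_of_sum3 {X Y Z X' Y' Z' : Set (Fin 13)} {U : Set (Fin 13)} (hX : X ⊆ U) (hY : Y ⊆ U)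
    (hZ : Z ⊆ U) (he : vtx X' + vtx Y' + vtx Z' = vtx X + vtx Y + vtx Z) : X' ⊆ U := by
  intro y hy
  by_contra h
  have h1 := congrFun he y
  simp only [Pi.add_apply] at h1
  rw [vtx_one hy, vtx_zero (fun h2 => h (hX h2)), vtx_zero (fun h2 => h (hY h2)),
    vtx_zero (fun h2 => h (hZ h2))] at h1
  have := vtx_le (X := Y') y
  have := vtx_le (X := Z') y
  linarith

theorem dg_of_sum (h : Good mm) {i j i' j' : ℕ}
    (he : vtx (Ps mm i') + vtx (Ps mm j') = vtx (Ps mm i) + vtx (Ps mm j)) :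
    ∀ x < 7, dg x i' + dg x j' = dg x i + dg x j := by
  intro x hx
  have h1 := congrFun he ⟨ma mm x, h.lt x hx⟩
  simp only [Pi.add_apply] at h1
  rw [vtx_Ps h hx rfl, vtx_Ps h hx rfl, vtx_Ps h hx rfl, vtx_Ps h hx rfl] at h1
  exact_mod_cast h1

theorem dg_of_sum3 (h : Good mm) {i j k i' j' k' : ℕ}
    (he : vtx (Ps mm i') + vtx (Ps mm j') + vtx (Ps mm k') =
      vtx (Ps mm i) + vtx (Ps mm j) + vtx (Ps mm k)) :
    ∀ x < 7, dg x i' + dg x j' + dg x k' = dg x i + dg x j + dg x k := by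
  intro x hx
  have h1 := congrFun he ⟨ma mm x, h.lt x hx⟩
  simp only [Pi.add_apply] at h1
  rw [vtx_Ps h hx rfl, vtx_Ps h hx rfl, vtx_Ps h hx rfl, vtx_Ps h hx rfl, vtx_Ps h hx rfl,
    vtx_Ps h hx rfl] at h1
  exact_mod_cast h1

theorem vtx_out {i : ℕ} {y : Fin 13} (hy : y ∉ St (im mm 127)) : vtx (Ps mm i) y = 0 :=
  vtx_zero fun h => hy (Ps_sub i h)

theorem mem_full {y : Fin 13} (hy : y ∈ St (im mm 127)) : ∃ x < 7, ma mm x = y := by
  rw [mem_St, testBit_im] at hy
  obtain ⟨x, hx, -, h⟩ := hy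
  exact ⟨x, hx, h⟩

theorem sum_of_dg (h : Good mm) {i j i' j' : ℕ}
    (he : ∀ x < 7, dg x i' + dg x j' = dg x i + dg x j) :
    vtx (Ps mm i') + vtx (Ps mm j') = vtx (Ps mm i) + vtx (Ps mm j) := by
  funext y
  simp only [Pi.add_apply]
  by_cases hy : y ∈ St (im mm 127)
  · obtain ⟨x, hx, h1⟩ := mem_full hy
    rw [vtx_Ps h hx h1, vtx_Ps h hx h1, vtx_Ps h hx h1, vtx_Ps h hx h1]
    exact_mod_cast he x hx
  · rw [vtx_out hy, vtx_out hy, vtx_out hy, vtx_out hy]

theorem sum_of_dg3 (h : Good mm) {i j k i' j' k' : ℕ}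
    (he : ∀ x < 7, dg x i' + dg x j' + dg x k' = dg x i + dg x j + dg x k) :
    vtx (Ps mm i') + vtx (Ps mm j') + vtx (Ps mm k') =
      vtx (Ps mm i) + vtx (Ps mm j) + vtx (Ps mm k) := by
  funext y
  simp only [Pi.add_apply]
  by_cases hy : y ∈ St (im mm 127)
  · obtain ⟨x, hx, h1⟩ := mem_full hy
    rw [vtx_Ps h hx h1, vtx_Ps h hx h1, vtx_Ps h hx h1, vtx_Ps h hx h1, vtx_Ps h hx h1,
      vtx_Ps h hx h1]
    exact_mod_cast he x hx
  · rw [vtx_out hy, vtx_out hy, vtx_out hy, vtx_out hy, vtx_out hy, vtx_out hy]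

/-- the index of a basis of the restriction -/
noncomputable def ix (mm : ℕ) (X : Set (Fin 13)) : ℕ :=
  open Classical in if h : ∃ i < 29, X = Ps mm i then h.choose else 0

theorem ix_Ps (h : Good mm) {i : ℕ} (hi : i < 29) : ix mm (Ps mm i) = i := by
  have h1 : ∃ j < 29, Ps mm i = Ps mm j := ⟨i, hi, rfl⟩
  rw [ix, dif_pos h1]
  exact (Ps_inj h hi h1.choose_spec.1 h1.choose_spec.2).symm

theorem sys (hM : IsVecMatroid pgVec M) (hC : Comb M w e) (h : Good mm) :
    Sys (fun i j => e (Ps mm i) (Ps mm j)) (fun i => w (Ps mm i)) := by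
  refine ⟨fun i j => hC.symm _ _, ?_, ?_, ?_, ?_⟩
  · intro i j hi hj
    obtain ⟨X', Y', hX', hY', he, hs⟩ := hC.two _ _ (Ps_base hM h hi) (Ps_base hM h hj)
    obtain ⟨i', hi', rfl⟩ := eq_Ps hM h hX' (sub_of_sum (Ps_sub i) (Ps_sub j) hs)
    obtain ⟨j', hj', rfl⟩ := eq_Ps hM h hY'
      (sub_of_sum (Ps_sub i) (Ps_sub j) ((add_comm _ _).trans hs))
    exact ⟨i', j', hi', hj', he, dg_of_sum h hs⟩
  · intro i j i' j' hi hj hi' hj' he hd
    rcases hC.lt _ _ _ _ (Ps_base hM h hi) (Ps_base hM h hj) (Ps_base hM h hi')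
      (Ps_base hM h hj') he (sum_of_dg h hd) with h1 | h1 | h1
    · exact Or.inl ⟨Ps_inj h hi' hi h1.1, Ps_inj h hj' hj h1.2⟩
    · exact Or.inr (Or.inl ⟨Ps_inj h hi' hj h1.1, Ps_inj h hj' hi h1.2⟩)
    · exact Or.inr (Or.inr h1)
  · intro i j k hi hj hk
    obtain ⟨X', Y', Z', hX', hY', hZ', he1, he2, he3, hs⟩ :=
      hC.three _ _ _ (Ps_base hM h hi) (Ps_base hM h hj) (Ps_base hM h hk)
    obtain ⟨i', hi', rfl⟩ := eq_Ps hM h hX' (sub_of_sum3 (Ps_sub i) (Ps_sub j) (Ps_sub k) hs)
    obtain ⟨j', hj', rfl⟩ := eq_Ps hM h hY'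
      (sub_of_sum3 (Ps_sub i) (Ps_sub j) (Ps_sub k) (X' := Y') (Y' := Ps mm i') (Z' := Z')
        (by rw [← hs]; ring))
    obtain ⟨k', hk', rfl⟩ := eq_Ps hM h hZ'
      (sub_of_sum3 (Ps_sub i) (Ps_sub j) (Ps_sub k) (X' := Z') (Y' := Ps mm i') (Z' := Ps mm j')
        (by rw [← hs]; ring))
    exact ⟨i', j', k', hi', hj', hk', he1, he2, he3, dg_of_sum3 h hs⟩
  · intro i j k i' j' k' hi hj hk hi' hj' hk' h1 h2 h3 h4 h5 h6 hd
    have h7 := hC.unique _ _ _ _ _ _ (Ps_base hM h hi) (Ps_base hM h hj) (Ps_base hM h hk)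
      (Ps_base hM h hi') (Ps_base hM h hj') (Ps_base hM h hk') h1 h2 h3 h4 h5 h6 (sum_of_dg3 h hd)
    have h8 := congrArg (Multiset.map (ix mm)) h7
    simp only [Multiset.insert_eq_cons, Multiset.map_cons, Multiset.map_singleton, ix_Ps h hi,
      ix_Ps h hj, ix_Ps h hk, ix_Ps h hi', ix_Ps h hj', ix_Ps h hk'] at h8
    exact h8

end

end H78.QT.W7
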